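import Pool.Agent.H987.Y.StC

/-! Project EU: the limit-periodic hopping as a stationary ergodic environment. -/

set_option autoImplicit false

open scoped BigOperators Topology
open Filter MeasureTheory

namespace Pool.Agent.H121.EU

open Pool.Agent.H987.Y

variable {d : ℕ} {Q : ℕ → ℕ}

/-- the odometer: the digits of `hd n u + v` modulo `pQ Q n` -/
def odo (v : Lt d) (u : Hu d Q) : Hu d Q := fun k i =>
  ⟨(((hd (k + 1) u i + v i) % (pQ Q (k + 1) : ℤ)) / (pQ Q k : ℤ)).toNat % Q k,
    Nat.mod_lt _ (Fin.pos (u k i))⟩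

/-- **EU-A (the odometer is an action).** Everything is coordinatewise in `i`.

Proof. `pQ Q (n+1) = pQ Q n * Q n`, `hd (n+1) u i = hd n u i + pQ Q n * (u n i)`. By induction
`0 ≤ hd n u i < pQ Q n`. The congruence: let `a = hd (n+1) u i + v i`, `N = pQ Q n`, `q = Q n`; the digit
`(a % (N q)) / N` is in `[0, q)` (so `toNat` and `% Q k` do nothing) and
`a % (N q) = a % N + N * ((a % (N q)) / N)`; by the induction hypothesis
`hd n (odo v u) i = (hd n u i + v i) % N` (strengthen the statement in this way), and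
`hd (n+1) u i + v i ≡ hd n u i + v i` modulo `N`, so
`hd (n+1) (odo v u) i = a % N + N * ((a % (N q)) / N) = a % (N q)`. Injectivity: the digits are determined by the
numbers `hd n u i` (`u n i = (hd (n+1) u i - hd n u i) / N`). `odo 0 u = u` and `odo (v + w) u = odo v (odo w u)`
follow from the injectivity: both sides have `hd n .. i ≡ hd n u i + v i + w i` modulo `pQ Q n` and both are
in `[0, pQ Q n)`. -/
def S_odoA : Prop :=
  ∀ (d : ℕ) (Q : ℕ → ℕ), (∀ k, 0 < Q k) →
    (∀ (u : Hu d Q) (n : ℕ) (i : Fin d), 0 ≤ hd n u i ∧ hd n u i < pQ Q n) ∧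
    (∀ (v : Lt d) (u : Hu d Q) (n : ℕ) (i : Fin d),
      hd n (odo v u) i = (hd n u i + v i) % (pQ Q n : ℤ)) ∧
    (∀ u u' : Hu d Q, (∀ n i, hd n u i = hd n u' i) → u = u') ∧
    (∀ u : Hu d Q, odo 0 u = u) ∧
    ∀ (v w : Lt d) (u : Hu d Q), odo (v + w) u = odo v (odo w u)

/-- **EU-B (the odometer preserves the measure and is ergodic).** You may assume `S_odoA` as a hypothesis
(`h : S_odoA`).

Proof. `PH d Q` is the product of the uniform laws of the digits `u k : Fin d → Fin (Q k)`. For `c` with
`0 ≤ c i < pQ Q n` the cylinder `Z n c = {u | ∀ i, hd n u i = c i}` has the form `{u | ∀ k < n, u k = e k}` (the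
digits `e k` of `c`), so its measure is `1 / (pQ Q n)^d` (`Measure.infinitePi_pi`; `unif` of a point is
`1/card`). Measurability of `odo v`: coordinatewise (`measurable_pi_iff`), a function of finitely many
discrete coordinates. The sets `Z n c` and the empty set are a `π`-system which generates the `σ`-algebra
(two of them are nested or disjoint; `u k = e` is a finite union of sets `Z (k+1) c`).
`odo v ⁻¹' Z n c = Z n ((c - v) mod pQ Q n)` by the second item of `S_odoA`, so `odo v` preserves the measure of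
`Z n c`, hence the measure (`MeasureTheory.ext_of_generate_finite`).
Zero-one law: let `odo v ⁻¹' T = T` for all `v`. For `c, c'` in the box, with `v = c' - c`:
`odo v ⁻¹' (Z n c') = Z n c`, so `P (T ∩ Z n c) = P (odo v ⁻¹' (T ∩ Z n c')) = P (T ∩ Z n c')`; the sets `Z n c`
are a partition, so `P (T ∩ Z n c) = P T / (pQ Q n)^d = P T * P (Z n c)`. So the finite measures `P.restrict T`
and `P T • P` agree on the `π`-system, hence are equal, and `P T = P (T ∩ T) = P T * P T`. -/
def S_odoB : Prop :=
  ∀ (d : ℕ) (Q : ℕ → ℕ), (∀ k, 0 < Q k) →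
    (∀ v : Lt d, MeasurePreserving (odo v) (PH d Q) (PH d Q)) ∧
    ∀ T : Set (Hu d Q), MeasurableSet T → (∀ v : Lt d, odo v ⁻¹' T = T) →
      PH d Q T = 0 ∨ PH d Q T = 1

end Pool.Agent.H121.EU
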