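import Pool.Agent.H121.EU.Weak
import Pool.Agent.H121.MY.Main
import Pool.Agent.H121.GA.Main

/-! Project EU: assembly. -/

set_option autoImplicit false
set_option linter.unusedSectionVars false

open scoped BigOperators InnerProductSpace Topology ENNReal
open Filter MeasureTheory

namespace Pool.Agent.H121.EU

section my

open Pool.Agent.Y662.TR (LL Cf Mw dv hu lmk ll_ext ll_summable clp_eq Mw_apply dv_apply)
open Pool.Agent.TH369.MU (SpM spm_exists)
open Pool.Agent.H987.Z (Rs SqS IsSp sp_of of_sp)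
open Pool.Agent.H987.Y
open Pool.Agent.H121.Z987 (wt HH HH_apply HH_rs)
open Pool.Agent.H121.ME (eE)
open Pool.Agent.H121.MY

/-- **localization near the bottom of the spectrum and at strong disorder, for all conductances in
the class** -/
theorem locE (hsig : S_sigY) (htop : S_topY) (d : ℕ) (hd : 1 ≤ d) (a m : ℕ → ℝ)
    (ha : ∀ k, 0 ≤ a k) (hm : ∀ k, 0 ≤ m k)
    (hp : ∀ p : ℝ, 0 < p → Summable fun k => a k ^ p * m k) (D : ℝ) (hD : 0 < D) :
    ∃ (ψ : ℕ → ℝ) (lam1 : ℝ), (∀ n, 0 < ψ n) ∧ 0 < lam1 ∧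
      ∀ (μ : Measure ℝ) [IsProbabilityMeasure μ], (∀ᵐ v ∂μ, |v| ≤ 1) →
      (∀ E : Set ℝ, MeasurableSet E → μ E ≤ ENNReal.ofReal D * volume E) →
      ((∀ δ : ℝ, 0 < δ → 0 < μ (Set.Iio (-1 + δ))) →
        (∀ N : ℕ, ∃ n : ℕ, N ≤ n ∧ μ (Set.Iio (-1 + 1 / (n : ℝ))) ≤ ENNReal.ofReal (ψ n)) →
        ∀ lam : ℝ, 0 < lam → ∃ E0 : ℝ, -lam < E0 ∧ E0 < 0 ∧ ∀ A : Lt d → Lt d → ℝ, Cls d a m A →
          ∀ᵐ ω ∂(Measure.infinitePi fun _ : Lt d => μ),
            (∀ f : Lt d → ℂ, SqS f → ∃ m : Measure ℝ, IsSp (HamC A lam ω) f m) ∧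
            PPi (HamC A lam ω) (Set.Iio E0) ∧
            ∃ (t : ℝ) (u : Lt d → ℂ), t < E0 ∧ SqS u ∧ (∃ p, u p ≠ 0) ∧
              ∀ p, HamC A lam ω u p = (t : ℂ) * u p) ∧
      (∀ lam : ℝ, lam1 ≤ lam → ∀ A : Lt d → Lt d → ℝ, Cls d a m A →
        ∀ᵐ ω ∂(Measure.infinitePi fun _ : Lt d => μ),
        (∀ f : Lt d → ℂ, SqS f → ∃ m : Measure ℝ, IsSp (HamC A lam ω) f m) ∧
        PPi (HamC A lam ω) Set.univ) := by
  obtain ⟨ψ, hψ, he⟩ := edgeY hsig htop d hd a m ha hm hp D hD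
  obtain ⟨lam1, hl1, hst⟩ := strongY d a m ha hm D hD
  refine ⟨ψ, lam1, hψ, hl1, ?_⟩
  intro μ _ hμ hμD
  obtain ⟨r1, r2, r3, r4⟩ := refl_law μ D
  have hμ' := r2 hμ
  have hμD' := r3 hμD
  constructor
  · intro hsup hth lam hlam
    obtain ⟨N, hN⟩ := exists_nat_ge (max lam (1 / lam))
    obtain ⟨n, hn, htail⟩ := hth N
    have hn' : (N : ℝ) ≤ n := by exact_mod_cast hn
    have h1 : lam ≤ n := ((le_max_left _ _).trans hN).trans hn'
    have h3 : 1 / lam ≤ n := ((le_max_right _ _).trans hN).trans hn'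
    have h4 : 1 ≤ n * lam := by rwa [div_le_iff₀ hlam] at h3
    have hn0 : (0 : ℝ) < n := hlam.trans_le h1
    have htail' : (μ.map fun v => -v) (Set.Ioi (1 - 1 / (n : ℝ))) ≤ ENNReal.ofReal (ψ n) := by
      rw [r4]
      have h5 : -(1 - 1 / (n : ℝ)) = -1 + 1 / n := by ring
      rw [h5]
      exact htail
    have hn1 : (1 : ℝ) ≤ n := by
      have : 0 < n := by exact_mod_cast hn0
      exact_mod_cast this
    obtain ⟨b, hb⟩ : ∃ b : ℝ, b = 2 * (d : ℝ) + ∑' k, a k * m k := ⟨_, rfl⟩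
    have hE : b - eE b lam n = -(lam * (1 - 1 / (n : ℝ)) + 1 / (2 * (n : ℝ) ^ 2)) := by
      unfold eE
      ring
    refine ⟨b - eE b lam n, ?_, ?_, fun A hA => ?_⟩
    · rw [hE]
      have h8 : 1 / (2 * (n : ℝ) ^ 2) < lam * (1 / n) := by
        rw [mul_one_div, div_lt_div_iff₀ (by positivity) hn0]
        nlinarith
      linarith
    · rw [hE]
      have h7 : 0 ≤ 1 - 1 / (n : ℝ) := by
        rw [sub_nonneg, div_le_one hn0]
        exact hn1
      have h8 : 0 < 1 / (2 * (n : ℝ) ^ 2) := by positivity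
      have h9 : 0 ≤ lam * (1 - 1 / (n : ℝ)) := mul_nonneg hlam.le h7
      linarith
    · obtain ⟨h5, h6⟩ := he A hA (μ.map fun v => -v) hμ' hμD' lam n hlam h1 h4 htail'
      have h6' := h6 (fun δ hδ => by
        rw [r4]
        have h7 : -(1 - δ) = -1 + δ := by ring
        rw [h7]
        exact hsup δ hδ)
      rw [← hb] at h5 h6'
      filter_upwards [refl_prod μ _ h5, refl_prod μ _ h6', bdd_ae' μ hμ] with ω hω1 hω2 hω3
      refine ⟨fun f hf => has_c hA lam ω hω3 f hf, ?_, ?_⟩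
      · have h10 := ppi_c hA lam ω (Set.Ioi (eE b lam n)) hω1
        rw [← hb] at h10
        have h11 : (fun E => -1 * E + b) ⁻¹' Set.Ioi (eE b lam n) = Set.Iio (b - eE b lam n) := by
          ext E
          simp only [Set.mem_preimage, Set.mem_Ioi, Set.mem_Iio]
          constructor <;> intro h <;> linarith
        rw [h11] at h10
        exact h10
      · obtain ⟨t, u, g1, g2, g3, g4⟩ := hω2
        refine ⟨b - t, u, by linarith, g2, g3, fun p => ?_⟩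
        rw [hamc_t hA lam ω u g2 p, g4, ← hb]
        push_cast
        ring
  · intro lam hlam A hA
    have h5 := hst A hA (μ.map fun v => -v) hμ' hμD' lam hlam
    filter_upwards [refl_prod μ _ h5, bdd_ae' μ hμ] with ω hω1 hω3
    refine ⟨fun f hf => has_c hA lam ω hω3 f hf, ?_⟩
    have h10 := ppi_c hA lam ω Set.univ (fun f m' hf hm' => by
      obtain ⟨N, hN, hmN⟩ := hω1 f m' hf hm'
      exact ⟨N, hN, by rwa [← Set.compl_eq_univ_sdiff]⟩)
    rwa [Set.preimage_univ] at h10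


end my

section ga

open Pool.Agent.Y662.TR (LL Cf Mw dv hu lmk ll_ext ll_summable dv_apply)
open Pool.Agent.H987.Z (Rs SqS IsSp)
open Pool.Agent.H987.Y
open Pool.Agent.H121.Z987 (wt)
open Pool.Agent.H121.ME (Dec Gra wt_pos wt_cont W_fin)
open Pool.Agent.H121.MY (Cls HamT kt kt_ker PPi ACo refl_prod S_sigY)
open Pool.Agent.H121.GA

/-- **localization** -/
theorem locEG (hop : S_op) (hru : S_ruA) (hrf : S_ruB) (hloc : S_locU) (hatom : S_atom)
    (hweyA : S_weyA) (hweyB : S_weyB) (hgra : S_graD) (hdT : S_decT) (hdS : S_decS)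
    (hsig : S_sigY) (d : ℕ) (hd : 1 ≤ d) (a m : ℕ → ℝ) (ha : ∀ k, 0 ≤ a k) (hm : ∀ k, 0 ≤ m k)
    (hp : ∀ p : ℝ, 0 < p → Summable fun k => a k ^ p * m k) (D : ℝ) (hD : 0 < D) (e : ℝ)
    (he : 2 * (d : ℝ) + ∑' k, a k * m k < e) :
    ∃ lam0 lam1 : ℝ, 0 < lam0 ∧ 0 < lam1 ∧
      ∀ (μ : Measure ℝ) [IsProbabilityMeasure μ], (∀ a b : ℝ, a < b → 0 < μ (Set.Ioo a b)) →
      Dd D μ →
      (∀ lam : ℝ, 0 < lam → lam ≤ lam0 → ∀ A : Lt d → Lt d → ℝ, Cls d a m A → LR A lam μ e) ∧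
      (∀ lam : ℝ, 0 < lam → ∃ e1 : ℝ, 0 < e1 ∧ ∀ A : Lt d → Lt d → ℝ, Cls d a m A →
        LR A lam μ e1) ∧
      (∀ lam : ℝ, lam1 ≤ lam → ∀ A : Lt d → Lt d → ℝ, Cls d a m A → LR A lam μ (-1)) := by
  obtain ⟨s, hs0, hs1, hs⟩ := hsig a m ha hm hp (2 * d) e (by positivity) he
  obtain ⟨S, hS⟩ : ∃ S, S = 2 * (d : ℝ) + ∑' k, a k ^ s * m k := ⟨_, rfl⟩
  rw [← hS] at hs
  have hS0 : 0 ≤ S := by
    rw [hS]
    have : 0 ≤ ∑' k, a k ^ s * m k :=
      tsum_nonneg fun k => mul_nonneg (Real.rpow_nonneg (ha k) _) (hm k)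
    positivity
  have hcn : 0 ≤ ∑' k, a k * m k := tsum_nonneg fun k => mul_nonneg (ha k) (hm k)
  have he0 : 0 < e := lt_of_le_of_lt (by positivity) he
  have hes : 0 < e ^ s := by positivity
  -- a small fraction
  obtain ⟨δ, hδ⟩ : ∃ δ : ℝ, δ = (1 - S / e ^ s) / 2 := ⟨_, rfl⟩
  have hq : S / e ^ s < 1 := by rwa [div_lt_one hes]
  have hq0 : 0 ≤ S / e ^ s := by positivity
  have hδ0 : 0 < δ := by rw [hδ]; linarith
  have hδ1 : δ < 1 := by rw [hδ]; linarith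
  have hSδ : S < e ^ s * (1 - δ) := by
    have h1 : S = e ^ s * (S / e ^ s) := by field_simp
    have h2 : S / e ^ s < 1 - δ := by rw [hδ]; linarith
    calc S = e ^ s * (S / e ^ s) := h1
      _ < e ^ s * (1 - δ) := mul_lt_mul_of_pos_left h2 hes
  obtain ⟨K, hK0, hK⟩ := hdT s D δ hs0 hs1 hD hδ0
  obtain ⟨c0, hc0, hc⟩ := hdS s D hs0 hs1 hD
  -- the smallness of `lam`
  obtain ⟨lam0, hl0, hl⟩ : ∃ lam0 : ℝ, 0 < lam0 ∧ ∀ lam : ℝ, 0 < lam → lam ≤ lam0 →
      lam * K ≤ e ∧ S < (e - lam * K) ^ s * (1 - δ) := by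
    have h1 : Tendsto (fun lam : ℝ => (e - lam * K) ^ s * (1 - δ)) (𝓝 0)
        (𝓝 ((e - 0 * K) ^ s * (1 - δ))) := by
      refine Tendsto.mul_const _ ?_
      refine Tendsto.rpow_const ?_ (Or.inr hs0.le)
      exact tendsto_const_nhds.sub (tendsto_id.mul_const K)
    rw [zero_mul, sub_zero] at h1
    have h2 := h1.eventually_const_lt hSδ
    obtain ⟨r, hr0, hr⟩ := Metric.eventually_nhds_iff.1 h2
    refine ⟨min (r / 2) (e / K), by positivity, fun lam h3 h4 => ⟨?_, hr ?_⟩⟩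
    · have h5 := h4.trans (min_le_right _ _)
      rwa [le_div_iff₀ hK0] at h5
    · rw [Real.dist_eq, sub_zero, abs_of_pos h3]
      have h5 := h4.trans (min_le_left _ _)
      linarith
  refine ⟨lam0, ((S + 1) / c0) ^ (1 / s), hl0, by positivity, ?_⟩
  intro μ _ hμp hμD
  have hgr : ∀ lam : ℝ, 0 < lam → ∃ C : ℝ, Gra μ lam s C := by
    intro lam hlam
    obtain ⟨C, -, hC⟩ := hgra s D lam hs0 hs1 hD hlam
    exact ⟨C, hC μ hμD⟩
  -- the general tail statement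
  have hgen : ∀ lam e' : ℝ, 0 < lam → lam * K ≤ e' → S < (e' - lam * K) ^ s * (1 - δ) →
      ∀ A : Lt d → Lt d → ℝ, Cls d a m A → LR A lam μ e' := by
    intro lam e' hlam h1 h2 A hA
    obtain ⟨C, hC⟩ := hgr lam hlam
    have h3 : (e' / lam - K) ^ s * (1 - δ) * lam ^ s = (e' - lam * K) ^ s * (1 - δ) := by
      have h4 : e' / lam - K = (e' - lam * K) / lam := by field_simp
      rw [h4, Real.div_rpow (by linarith) hlam.le]
      field_simp
    exact loc_core hop hru hrf hloc hatom hweyA hweyB hd hA μ hμp lam s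
      ((e' / lam - K) ^ s * (1 - δ)) S C e' hlam hs0 hs1 (by rw [h3]; linarith) (by rw [h3]; exact h2)
      hS hS0 hC (fun z _ hz => dec_tail μ s K δ lam e' hs0 hδ0.le hδ1.le hlam h1 (hK μ hμD) z hz)
  refine ⟨fun lam h1 h2 => ?_, fun lam h1 => ?_, fun lam h1 A hA => ?_⟩
  · obtain ⟨h3, h4⟩ := hl lam h1 h2
    exact hgen lam e h1 h3 h4
  · refine ⟨e + lam * K, by positivity, hgen lam (e + lam * K) h1 (by linarith) ?_⟩
    have h3 : e + lam * K - lam * K = e := by ring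
    rw [h3]
    exact hSδ
  · have hlam0 : 0 < lam := lt_of_lt_of_le (by positivity) h1
    obtain ⟨C, hC⟩ := hgr lam hlam0
    have hcl : S + 1 ≤ c0 * lam ^ s := by
      have h5 : (S + 1) / c0 ≤ lam ^ s := by
        calc (S + 1) / c0 = (((S + 1) / c0) ^ (1 / s)) ^ s := by
              rw [← Real.rpow_mul (by positivity), one_div_mul_cancel hs0.ne', Real.rpow_one]
          _ ≤ lam ^ s := Real.rpow_le_rpow (by positivity) h1 hs0.le
      rw [div_le_iff₀ hc0] at h5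
      linarith
    exact loc_core hop hru hrf hloc hatom hweyA hweyB hd hA μ hμp lam s c0 S C (-1) hlam0 hs0 hs1
      (by positivity) (by linarith) hS hS0 hC (fun z _ _ β hβ => hc μ hμD _ β hβ)


end ga

end Pool.Agent.H121.EU
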