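import Pool.Agent.H121.EU.Loc
import Pool.Agent.H307.EU.OdoA

/-! Project EU: the theorems. -/

set_option autoImplicit false
set_option linter.unusedSectionVars false

open scoped BigOperators InnerProductSpace Topology ENNReal
open Filter MeasureTheory

namespace Pool.Agent.H121.EU

open Pool.Agent.Y662.TR (LL dv hu lmk ll_summable)
open Pool.Agent.H987.Z (Rs SqS IsSp)
open Pool.Agent.H987.Y
open Pool.Agent.H121.MY (Cls HamC HamT kt kt_ker PPi ACo refl_prod)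
open Pool.Agent.H121.GA

/-! ### bounded laws -/

theorem odo_env (hB : S_odoB) {d : ℕ} {Q : ℕ → ℕ} (hQ : ∀ k, 0 < Q k) :
    IsProbabilityMeasure (PH d Q) ∧ (∀ u : Hu d Q, odo 0 u = u) ∧
    (∀ (v w : Lt d) (u : Hu d Q), odo (v + w) u = odo v (odo w u)) ∧
    (∀ v : Lt d, MeasurePreserving (odo v) (PH d Q) (PH d Q)) ∧
    ∀ T : Set (Hu d Q), MeasurableSet T → (∀ v : Lt d, odo v ⁻¹' T = T) →
      PH d Q T = 0 ∨ PH d Q T = 1 := by
  obtain ⟨-, -, -, h1, h2⟩ := Pool.Agent.H307.EU.odoA d Q hQ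
  obtain ⟨h3, h4⟩ := hB d Q hQ
  exact ⟨(Pool.Agent.H588.Y987.dig d Q hQ).1, h1, h2, h3, h4⟩

/-- what is known about the conductances of one point of the environment -/
theorem cls_env {d : ℕ} {a m : ℕ → ℝ} {A : Lt d → Lt d → ℝ} (H : Cls d a m A)
    (hp : ∀ p : ℝ, 0 < p → Summable fun k => a k ^ p * m k) :
    (∀ x y, 0 ≤ A x y) ∧ (∀ x y, A x y = A y x) ∧ (∀ x, HasSum (fun y => A x y) (∑' k, a k * m k)) ∧
    (∀ p : ℝ, 0 < p → ∃ S : ℝ, ∀ x, (Summable fun y => A x y ^ p) ∧ ∑' y, A x y ^ p ≤ S) ∧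
    (∀ δ : ℝ, 0 < δ → ∃ (N R : ℕ) (B : (Fin d → ℤ) → (Fin d → ℤ) → ℝ), 0 < N ∧
      (∀ x y v, B (x + (N : ℤ) • v) (y + (N : ℤ) • v) = B x y) ∧
      (∀ x y, B x y ≠ 0 → ∀ i, |x i - y i| ≤ R) ∧
      ∀ x, (Summable fun y => |A x y - B x y|) ∧ ∑' y, |A x y - B x y| ≤ δ) := by
  refine ⟨H.nn, H.sy, H.rs, Pool.Agent.H121.MY.Cls.mom H hp, fun δ hδ => ?_⟩
  obtain ⟨N, R, h, B, b1, b2, b3⟩ := H.ap δ hδ
  exact ⟨N, R, B, b1, b2.per, b2.rng, fun x => ⟨b3.sm x, b3.le x⟩⟩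

set_option maxHeartbeats 1000000 in
/-- **bounded laws** -/
theorem mainA (hoB : S_odoB) (d : ℕ) (hd : 1 ≤ d) (α β : ℝ) (hα : 0 < α) (hαβ : α ≤ β)
    (hβ : β < 4 * d) (h2 : d = 2 → β < 4 ∨ 4 < α) (ε : ℝ) (hε : 0 < ε) :
    ∃ (κ lam0 : ℝ) (K : Type) (_ : MeasurableSpace K) (P : Measure K)
      (τ : (Fin d → ℤ) → K → K) (A : K → (Fin d → ℤ) → (Fin d → ℤ) → ℝ), 0 < κ ∧ κ ≤ ε ∧ 0 < lam0 ∧
      (IsProbabilityMeasure P ∧ (∀ u, τ 0 u = u) ∧ (∀ v w u, τ (v + w) u = τ v (τ w u)) ∧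
        (∀ v, MeasurePreserving (τ v) P P) ∧
        (∀ T : Set K, MeasurableSet T → (∀ v, τ v ⁻¹' T = T) → P T = 0 ∨ P T = 1) ∧
        (∀ x y, Measurable fun u => A u x y) ∧
        (∀ v u x y, A (τ v u) x y = A u (x + v) (y + v))) ∧
      (∀ u, (∀ x y, 0 ≤ A u x y) ∧ (∀ x y, A u x y = A u y x) ∧
        (∀ x, HasSum (fun y => A u x y) κ) ∧
        (∀ p : ℝ, 0 < p → ∃ S : ℝ, ∀ x, (Summable fun y => A u x y ^ p) ∧ ∑' y, A u x y ^ p ≤ S) ∧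
        (∀ δ : ℝ, 0 < δ → ∃ (N R : ℕ) (B : (Fin d → ℤ) → (Fin d → ℤ) → ℝ), 0 < N ∧
          (∀ x y v, B (x + (N : ℤ) • v) (y + (N : ℤ) • v) = B x y) ∧
          (∀ x y, B x y ≠ 0 → ∀ i, |x i - y i| ≤ R) ∧
          ∀ x, (Summable fun y => |A u x y - B x y|) ∧ ∑' y, |A u x y - B x y| ≤ δ)) ∧
      (∀ (μ : Measure ℝ) [IsProbabilityMeasure μ], (∀ᵐ v ∂μ, |v| ≤ 1) →
        ∀ lam : ℝ, 0 < lam → lam ≤ lam0 →
        ∀ᵐ u ∂P, ∀ᵐ ω ∂(Measure.infinitePi fun _ : Fin d → ℤ => μ),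
          ACo (HamC (A u) lam ω) α β fun x y => dv x y) ∧
      ∀ D : ℝ, 1 ≤ D → ∃ (ψ : ℕ → ℝ) (lam1 : ℝ), (∀ n, 0 < ψ n) ∧ 0 < lam1 ∧
      (∃ μ : Measure ℝ, IsProbabilityMeasure μ ∧ (∀ᵐ v ∂μ, |v| ≤ 1) ∧
        (∀ E : Set ℝ, MeasurableSet E → μ E ≤ ENNReal.ofReal D * volume E) ∧
        (∀ E : Set ℝ, MeasurableSet E → μ ((fun v => -v) ⁻¹' E) = μ E) ∧
        (∀ δ : ℝ, 0 < δ → 0 < μ (Set.Iio (-1 + δ))) ∧
        ∀ N : ℕ, ∃ n : ℕ, N ≤ n ∧ μ (Set.Iio (-1 + 1 / (n : ℝ))) ≤ ENNReal.ofReal (ψ n)) ∧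
      ∀ (μ : Measure ℝ) [IsProbabilityMeasure μ], (∀ᵐ v ∂μ, |v| ≤ 1) →
        (∀ E : Set ℝ, MeasurableSet E → μ E ≤ ENNReal.ofReal D * volume E) →
          ((∀ δ : ℝ, 0 < δ → 0 < μ (Set.Iio (-1 + δ))) →
            (∀ N : ℕ, ∃ n : ℕ, N ≤ n ∧ μ (Set.Iio (-1 + 1 / (n : ℝ))) ≤ ENNReal.ofReal (ψ n)) →
            ∀ lam : ℝ, 0 < lam → ∃ E0 : ℝ, -lam < E0 ∧ E0 < 0 ∧ ∀ u,
              ∀ᵐ ω ∂(Measure.infinitePi fun _ : Fin d → ℤ => μ),
                (∀ f : (Fin d → ℤ) → ℂ, SqS f → ∃ m : Measure ℝ, IsSp (HamC (A u) lam ω) f m) ∧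
                PPi (HamC (A u) lam ω) (Set.Iio E0) ∧
                ∃ (t : ℝ) (w : (Fin d → ℤ) → ℂ), t < E0 ∧ SqS w ∧ (∃ p, w p ≠ 0) ∧
                  ∀ p, HamC (A u) lam ω w p = (t : ℂ) * w p) ∧
          (∀ lam : ℝ, lam1 ≤ lam → ∀ u, ∀ᵐ ω ∂(Measure.infinitePi fun _ : Fin d → ℤ => μ),
            (∀ f : (Fin d → ℤ) → ℂ, SqS f → ∃ m : Measure ℝ, IsSp (HamC (A u) lam ω) f m) ∧
            PPi (HamC (A u) lam ω) Set.univ) := by
  have hc := Pool.Agent.H194.Z987.conv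
  have hg := Pool.Agent.H304.Z987.green
  have h1 := Pool.Agent.H284.Z987.hutri
  have hop := Pool.Agent.H168.Y987.op
  have heqv := Pool.Agent.H215.Y987.eqv hop
  have hmeas := Pool.Agent.H800.Y987.meas hop
  have htr := Pool.Agent.H410.Y987.troot hop
  have hfree := Pool.Agent.H788.Y987.free hop
  have hA := Pool.Agent.H332.Y987.hullA hfree
  have hsep := Pool.Agent.H796.Y987.sep
  have hdig := Pool.Agent.H588.Y987.dig
  obtain ⟨lam0, a, m, Q, A, hl0, ha, hm, hp, hs, hε', hQ, hcls, hAm, hcov, hac⟩ :=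
    weakE Pool.Agent.H307.EU.odoA Pool.Agent.H199.MY.gauge hop hmeas Pool.Agent.H295.Y987.ac2 hg
    (Pool.Agent.H795.Y987.bootk h1 Pool.Agent.H271.Z987.lln Pool.Agent.H628.Z987.star hg hop hmeas
      htr Pool.Agent.H588.Y987.tsplit)
    (Pool.Agent.H909.Y987.closek hop htr)
    (Pool.Agent.H297.Y987.net hop heqv hmeas htr hsep (Pool.Agent.H757.Y987.cov hop htr)
      (Pool.Agent.H323.Y987.fold Pool.Agent.H578.Y987.tile Pool.Agent.H383.Z987.word) hg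
      Pool.Agent.H784.Z987.mom h1)
    hfree hsep hdig hA
    (Pool.Agent.H825.Y987.hullB hA hdig heqv hmeas hop hg hsep)
    Pool.Agent.H168.Y987.kact (Pool.Agent.H734.Z987.free1 hc hg)
    (Pool.Agent.H548.Z987.free2 hc hg) (Pool.Agent.H383.Z987.free3 hc hg)
    d hd α β hα hαβ hβ h2 ε hε
  have hκ : 0 < ∑' k, a k * m k := by
    refine lt_of_lt_of_le (mul_pos (ha 0) (lt_of_lt_of_le one_pos (hm 0))) ?_
    exact hs.le_tsum 0 fun k _ => mul_nonneg (ha k).le (zero_le_one.trans (hm k))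
  obtain ⟨o1, o2, o3, o4, o5⟩ := odo_env hoB (d := d) hQ
  refine ⟨∑' k, a k * m k, lam0, Hu d Q, inferInstance, PH d Q, odo, A, hκ, hε', hl0,
    ⟨o1, o2, o3, o4, o5, hAm, hcov⟩, fun u => cls_env (hcls u) hp, hac, fun D hD => ?_⟩
  obtain ⟨ψ, lam1, hψ, hl1, hloc⟩ := locE Pool.Agent.H333.MY.sigY Pool.Agent.H548.MY.topY d hd a m
    (fun k => (ha k).le) (fun k => zero_le_one.trans (hm k)) hp D (by linarith)
  refine ⟨ψ, lam1, hψ, hl1, ?_, fun μ _ hμ hμD => ?_⟩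
  · obtain ⟨μ, e1, e2, e3, e4, e5, e6⟩ := Pool.Agent.H630.ME.s_law ψ hψ
    have hrefl : ∀ t : ℝ, μ (Set.Iio (-t)) = μ (Set.Ioi t) := by
      intro t
      rw [← e4 _ measurableSet_Iio]
      congr 1
      ext v
      simp only [Set.mem_preimage, Set.mem_Ioi, Set.mem_Iio]
      constructor <;> intro h <;> linarith
    refine ⟨μ, e1, e2, fun A hA => (e3 A hA).trans ?_, e4, fun δ hδ => ?_, fun N => ?_⟩
    · calc volume A = 1 * volume A := (one_mul _).symm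
        _ ≤ ENNReal.ofReal D * volume A := by
            gcongr
            rw [← ENNReal.ofReal_one]
            exact ENNReal.ofReal_le_ofReal hD
    · have h5 : -1 + δ = -(1 - δ) := by ring
      rw [h5, hrefl]
      exact e5 δ hδ
    · refine ⟨max N 2, le_max_left _ _, ?_⟩
      have h5 : -1 + 1 / ((max N 2 : ℕ) : ℝ) = -(1 - 1 / ((max N 2 : ℕ) : ℝ)) := by ring
      rw [h5, hrefl]
      exact e6 _ (le_max_right _ _)
  · obtain ⟨g1, g2⟩ := hloc μ hμ hμD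
    refine ⟨fun t1 t2 lam hlam => ?_, fun lam hlam u => g2 lam hlam (A u) (hcls u)⟩
    obtain ⟨E0, e1, e2, e3⟩ := g1 t1 t2 lam hlam
    exact ⟨E0, e1, e2, fun u => e3 (A u) (hcls u)⟩

/-! ### laws with tails -/

/-- symmetric laws with full support, a density at most `D / (1 + |v|)^4` and twelfth moment at most
`D` -/
structure Law (D : ℝ) (μ : Measure ℝ) : Prop where
  symm : (μ.map fun v => -v) = μ
  pos : ∀ a b : ℝ, a < b → 0 < μ (Set.Ioo a b)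
  density : Dd D μ
  moment : ∫⁻ v, ENNReal.ofReal (v ^ 12) ∂μ ≤ ENNReal.ofReal D

theorem ms_law {D : ℝ} (hD : 0 < D) {δ : ℝ} (hδ : 0 < δ) (μ : Measure ℝ) [IsProbabilityMeasure μ]
    (h : ∫⁻ v, ENNReal.ofReal (v ^ 12) ∂μ ≤ ENNReal.ofReal D) (t : ℝ)
    (ht : |t| ≤ min 1 (min 1 δ / (1 + D))) : Ms δ (μ.map fun v => t * v) := by
  have hD1 : 0 < 1 + D := by linarith
  have h0 := abs_nonneg t
  have ht1 : |t| ≤ 1 := ht.trans (min_le_left _ _)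
  have ht2 : |t| * (1 + D) ≤ min 1 δ := by
    have h5 := ht.trans (min_le_right _ _)
    rwa [le_div_iff₀ hD1] at h5
  have hm : Measurable fun v : ℝ => t * v := by fun_prop
  have key : ∀ v : ℝ, (t * v) ^ 2 ≤ |t| * (1 + v ^ 12) := by
    intro v
    have h3 : v ^ 2 ≤ 1 + v ^ 12 := by
      have e : v ^ 12 = (v ^ 2) ^ 6 := by ring
      rw [e]
      have h4 : 0 ≤ (v ^ 2) ^ 6 := by positivity
      rcases le_total (v ^ 2) 1 with h5 | h5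
      · linarith
      · have h6 : v ^ 2 ≤ (v ^ 2) ^ 6 := le_self_pow₀ h5 (by norm_num)
        linarith
    have h4 : t ^ 2 ≤ |t| := by
      rw [← sq_abs]
      nlinarith
    calc (t * v) ^ 2 = t ^ 2 * v ^ 2 := by ring
      _ ≤ |t| * (1 + v ^ 12) := mul_le_mul h4 h3 (sq_nonneg v) h0
  have key2 : ∀ v : ℝ, (t * v) ^ 12 ≤ |t| * v ^ 12 := by
    intro v
    have h4 : t ^ 12 ≤ |t| := by
      have h6 : t ^ 12 = |t| ^ 12 := by
        rw [show (12 : ℕ) = 2 * 6 by norm_num, pow_mul, pow_mul, sq_abs]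
      rw [h6]
      exact pow_le_of_le_one h0 ht1 (by norm_num)
    have h5 : 0 ≤ v ^ 12 := by positivity
    calc (t * v) ^ 12 = t ^ 12 * v ^ 12 := by ring
      _ ≤ |t| * v ^ 12 := mul_le_mul_of_nonneg_right h4 h5
  constructor
  · rw [lintegral_map (by fun_prop) hm]
    calc ∫⁻ v, ENNReal.ofReal ((t * v) ^ 2) ∂μ
        ≤ ∫⁻ v, ENNReal.ofReal |t| * (1 + ENNReal.ofReal (v ^ 12)) ∂μ := by
          refine lintegral_mono fun v => ?_
          rw [← ENNReal.ofReal_one, ← ENNReal.ofReal_add zero_le_one (by positivity),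
            ← ENNReal.ofReal_mul h0]
          exact ENNReal.ofReal_le_ofReal (key v)
      _ = ENNReal.ofReal |t| * (1 + ∫⁻ v, ENNReal.ofReal (v ^ 12) ∂μ) := by
          rw [lintegral_const_mul _ (by fun_prop), lintegral_add_left measurable_const]
          simp
      _ ≤ ENNReal.ofReal |t| * (1 + ENNReal.ofReal D) := by gcongr
      _ = ENNReal.ofReal (|t| * (1 + D)) := by
          rw [← ENNReal.ofReal_one, ← ENNReal.ofReal_add zero_le_one hD.le, ← ENNReal.ofReal_mul h0]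
      _ ≤ ENNReal.ofReal δ := ENNReal.ofReal_le_ofReal (ht2.trans (min_le_right _ _))
  · rw [lintegral_map (by fun_prop) hm]
    calc ∫⁻ v, ENNReal.ofReal ((t * v) ^ 12) ∂μ
        ≤ ∫⁻ v, ENNReal.ofReal |t| * ENNReal.ofReal (v ^ 12) ∂μ := by
          refine lintegral_mono fun v => ?_
          rw [← ENNReal.ofReal_mul h0]
          exact ENNReal.ofReal_le_ofReal (key2 v)
      _ = ENNReal.ofReal |t| * ∫⁻ v, ENNReal.ofReal (v ^ 12) ∂μ :=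
          lintegral_const_mul _ (by fun_prop)
      _ ≤ ENNReal.ofReal |t| * ENNReal.ofReal D := by gcongr
      _ = ENNReal.ofReal (|t| * D) := by rw [← ENNReal.ofReal_mul h0]
      _ ≤ ENNReal.ofReal 1 := by
          refine ENNReal.ofReal_le_ofReal (le_trans ?_ (ht2.trans (min_le_left _ _)))
          nlinarith
      _ = 1 := ENNReal.ofReal_one

theorem gauss_law : ∃ D : ℝ, 1 ≤ D ∧ Law D γ := by
  obtain ⟨g1, g2, g3, g4⟩ := Pool.Agent.H722.GA.gaus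
  obtain ⟨l0, hl0, hl⟩ := g4 1 one_pos
  have h1 := (hl l0 (by rw [abs_of_pos hl0])).2
  rw [lintegral_map (by fun_prop) (by fun_prop)] at h1
  have h2 : ∫⁻ v, ENNReal.ofReal (v ^ 12) ∂γ ≤ ENNReal.ofReal ((l0 ^ 12)⁻¹) := by
    have h3 : ∫⁻ v, ENNReal.ofReal ((l0 * v) ^ 12) ∂γ =
        ENNReal.ofReal (l0 ^ 12) * ∫⁻ v, ENNReal.ofReal (v ^ 12) ∂γ := by
      rw [← lintegral_const_mul _ (by fun_prop)]
      refine lintegral_congr fun v => ?_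
      rw [mul_pow, ENNReal.ofReal_mul (by positivity)]
    have h1' : ENNReal.ofReal (l0 ^ 12) * ∫⁻ v, ENNReal.ofReal (v ^ 12) ∂γ ≤ 1 := by
      rw [← h3]
      exact h1
    rw [ENNReal.ofReal_inv_of_pos (by positivity)]
    rw [ENNReal.le_inv_iff_mul_le, mul_comm]
    exact h1'
  refine ⟨max 72 (l0 ^ 12)⁻¹, le_trans (by norm_num) (le_max_left _ _), g3, g2, fun A hA => ?_, ?_⟩
  · refine (g1 A hA).trans (lintegral_mono fun v => ENNReal.ofReal_le_ofReal ?_)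
    gcongr
    exact le_max_left _ _
  · exact h2.trans (ENNReal.ofReal_le_ofReal (le_max_right _ _))

set_option maxHeartbeats 1000000 in
/-- **laws with tails** -/
theorem mainB (hoB : S_odoB) (d : ℕ) (hd : 1 ≤ d) (hd2 : d ≠ 2) (ε : ℝ) (hε : 0 < ε) :
    ∃ (κ : ℝ) (K : Type) (_ : MeasurableSpace K) (P : Measure K)
      (τ : (Fin d → ℤ) → K → K) (A : K → (Fin d → ℤ) → (Fin d → ℤ) → ℝ), 0 < κ ∧ κ ≤ ε ∧
      (IsProbabilityMeasure P ∧ (∀ u, τ 0 u = u) ∧ (∀ v w u, τ (v + w) u = τ v (τ w u)) ∧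
        (∀ v, MeasurePreserving (τ v) P P) ∧
        (∀ T : Set K, MeasurableSet T → (∀ v, τ v ⁻¹' T = T) → P T = 0 ∨ P T = 1) ∧
        (∀ x y, Measurable fun u => A u x y) ∧
        (∀ v u x y, A (τ v u) x y = A u (x + v) (y + v))) ∧
      (∀ u, (∀ x y, 0 ≤ A u x y) ∧ (∀ x y, A u x y = A u y x) ∧
        (∀ x, HasSum (fun y => A u x y) κ) ∧
        (∀ p : ℝ, 0 < p → ∃ S : ℝ, ∀ x, (Summable fun y => A u x y ^ p) ∧ ∑' y, A u x y ^ p ≤ S) ∧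
        (∀ δ : ℝ, 0 < δ → ∃ (N R : ℕ) (B : (Fin d → ℤ) → (Fin d → ℤ) → ℝ), 0 < N ∧
          (∀ x y v, B (x + (N : ℤ) • v) (y + (N : ℤ) • v) = B x y) ∧
          (∀ x y, B x y ≠ 0 → ∀ i, |x i - y i| ≤ R) ∧
          ∀ x, (Summable fun y => |A u x y - B x y|) ∧ ∑' y, |A u x y - B x y| ≤ δ)) ∧
      (∀ (u : K) (σ : ℝ) (ω : Lt d → ℝ), SAd (HamT (A u) σ ω) ∧
        ∀ f : Lt d → ℂ, SqS f → ∃ m : Measure ℝ, IsSp (HamT (A u) σ ω) f m) ∧
      ∀ D : ℝ, 1 ≤ D → ∃ σ0 σ1 : ℝ, 0 < σ0 ∧ 0 < σ1 ∧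
      ∀ (μ : Measure ℝ) [IsProbabilityMeasure μ], Law D μ →
      (∀ σ : ℝ, σ1 ≤ |σ| → ∀ u, ∀ᵐ ω ∂(Measure.infinitePi fun _ : Lt d => μ),
        PPi (HamT (A u) σ ω) Set.univ ∧ ∀ x y : ℝ, x < y → EXi (HamT (A u) σ ω) (Set.Ioo x y)) ∧
      (∀ σ : ℝ, σ ≠ 0 → |σ| ≤ σ0 → ∀ u, ∀ᵐ ω ∂(Measure.infinitePi fun _ : Lt d => μ),
        PPi (HamT (A u) σ ω) {E | 2 * d + ε ≤ |E|} ∧
        ∀ x y : ℝ, x < y → Set.Ioo x y ⊆ {E | 2 * d + ε ≤ |E|} →
          EXi (HamT (A u) σ ω) (Set.Ioo x y)) ∧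
      (∀ σ : ℝ, σ ≠ 0 → ∃ e : ℝ, 0 < e ∧ ∀ u, ∀ᵐ ω ∂(Measure.infinitePi fun _ : Lt d => μ),
        PPi (HamT (A u) σ ω) {E | e ≤ |E|} ∧
        ∀ x y : ℝ, x < y → Set.Ioo x y ⊆ {E | e ≤ |E|} → EXi (HamT (A u) σ ω) (Set.Ioo x y)) ∧
      (∀ σ : ℝ, σ ≠ 0 → |σ| ≤ σ0 → ∀ᵐ u ∂P, ∀ᵐ ω ∂(Measure.infinitePi fun _ : Lt d => μ),
          ACo (HamT (A u) σ ω) (-(2 * d - ε)) (2 * d - ε) fun x y => dv x y) := by
  have hc := Pool.Agent.H194.Z987.conv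
  have hg := Pool.Agent.H304.Z987.green
  have h1 := Pool.Agent.H284.Z987.hutri
  have hop := Pool.Agent.H168.Y987.op
  have hopb := Pool.Agent.H100.GA.opb
  have hmeas := Pool.Agent.H800.Y987.meas hop
  have htr := Pool.Agent.H410.Y987.troot hop
  have hfree := Pool.Agent.H788.Y987.free hop
  have hA := Pool.Agent.H332.Y987.hullA hfree
  have hsep := Pool.Agent.H796.Y987.sep
  have hdig := Pool.Agent.H588.Y987.dig
  have hru := Pool.Agent.H155.GA.ruA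
  have hrf := Pool.Agent.H870.GA.ruB hru
  have hsite : S_site := Pool.Agent.H399.GA.site hru
  have hmU : S_mU := Pool.Agent.H738.GA.mU hru hopb
  have hclos : S_closR := Pool.Agent.H800.GA.closR
  have hloc : S_locU := Pool.Agent.H139.GA.locU hrf hsite hmU Pool.Agent.H253.GA.wienR hclos
  have hweyA : S_weyA := Pool.Agent.H170.GA.weyA hru hrf hclos
  have hd1 : (1 : ℝ) ≤ d := by exact_mod_cast hd
  obtain ⟨ε1, hε1⟩ : ∃ ε1 : ℝ, ε1 = min ε 1 := ⟨_, rfl⟩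
  have hε10 : 0 < ε1 := by rw [hε1]; exact lt_min hε one_pos
  have hε1e : ε1 ≤ ε := by rw [hε1]; exact min_le_left _ _
  have hε11 : ε1 ≤ 1 := by rw [hε1]; exact min_le_right _ _
  obtain ⟨a, m, Q, A, l1, hl1, ha, hm, hp, hs, hκ, hQ, hcls, hAm, hcov, hac⟩ :=
    weakEG Pool.Agent.H307.EU.odoA hop hopb hmeas Pool.Agent.H249.GA.acR hg hru hrf hsite hmU
    Pool.Agent.H199.MY.gauge
    (Pool.Agent.H795.Y987.bootk h1 Pool.Agent.H271.Z987.lln Pool.Agent.H628.Z987.star hg hop hmeas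
      htr Pool.Agent.H588.Y987.tsplit)
    (Pool.Agent.H190.GA.closeb Pool.Agent.H196.GA.near Pool.Agent.H100.GA.opb) netU_ok hfree hsep
    hdig hA (Pool.Agent.H338.GA.hullBb hopb)
    Pool.Agent.H168.Y987.kact (Pool.Agent.H734.Z987.free1 hc hg)
    (Pool.Agent.H548.Z987.free2 hc hg) (Pool.Agent.H383.Z987.free3 hc hg)
    d hd ε1 (4 * d - ε1) hε10 (by linarith) (by linarith) (fun h => absurd h hd2) (ε1 / 4)
    (by linarith)
  have hκ0 : 0 < ∑' k, a k * m k := by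
    refine lt_of_lt_of_le (mul_pos (ha 0) (lt_of_lt_of_le one_pos (hm 0))) ?_
    exact hs.le_tsum 0 fun k _ => mul_nonneg (ha k).le (zero_le_one.trans (hm k))
  obtain ⟨o1, o2, o3, o4, o5⟩ := odo_env hoB (d := d) hQ
  have hAct : ∀ (u : Hu d Q) (σ : ℝ) (ω : Lt d → ℝ) (w : LL (Lt d)) (x : Lt d),
      HamT (A u) σ ω (fun y => w y) x = Op (kt (A u)) w x + ((σ * ω x : ℝ) : ℂ) * w x :=
    fun u σ ω w x => hamt_opt hop (hcls u) σ ω w x
  have hK : ∀ u, Rs (Op (kt (A u))) := fun u => (hop _ _ _ (kt_ker (hcls u))).2.2.1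
  refine ⟨∑' k, a k * m k, Hu d Q, inferInstance, PH d Q, odo, A, hκ0, by linarith,
    ⟨o1, o2, o3, o4, o5, hAm, hcov⟩, fun u => cls_env (hcls u) hp, fun u σ ω => ⟨?_, fun f hf => ?_⟩,
    fun D hD => ?_⟩
  · exact sad_of hru _ _ (hK u) (fun y => σ * ω y) (hAct u σ ω)
  · obtain ⟨m', hm', -⟩ := (hrf _ _ (hK u) fun y => σ * ω y).sp (lmk f hf)
    exact ⟨m', of_spr hru _ _ (hK u) (fun y => σ * ω y) (hAct u σ ω) f hf m' hm'⟩
  have hD0 : 0 < D := by linarith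
  obtain ⟨lam0, lam1, hlam0, hlam1, hL⟩ := locEG hop hru hrf hloc
    (Pool.Agent.H722.GA.atom hru hrf) hweyA Pool.Agent.H803.GA.weyB
    Pool.Agent.H307.GA.graD Pool.Agent.H195.GA.decT Pool.Agent.H195.GA.decS
    Pool.Agent.H333.MY.sigY d hd a m (fun k => (ha k).le) (fun k => zero_le_one.trans (hm k)) hp D
    hD0 (2 * d + ε1 / 2) (by linarith)
  obtain ⟨l0, hl0d⟩ : ∃ l0 : ℝ, l0 = min 1 (min 1 l1 / (1 + D)) := ⟨_, rfl⟩
  have hl0 : 0 < l0 := by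
    rw [hl0d]
    have : 0 < min 1 l1 := lt_min one_pos hl1
    positivity
  refine ⟨min l0 lam0, lam1, lt_min hl0 hlam0, hlam1, fun μ _ hμ => ?_⟩
  obtain ⟨hL1, hL2, hL3⟩ := hL μ hμ.pos hμ.density
  refine ⟨fun σ hσ u => ?_, fun σ hσ hσ0 u => ?_, fun σ hσ => ?_, fun σ hσ hσ0 => ?_⟩
  · have h2 := lr_abs (A u) μ hμ.symm σ (-1) (-1 / 2) (by norm_num) (hL3 |σ| hσ (A u) (hcls u))
    have h3 : {E : ℝ | -1 / 2 ≤ |E|} = Set.univ := by
      ext E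
      simp only [Set.mem_setOf_eq, Set.mem_univ, iff_true]
      have := abs_nonneg E
      linarith
    rw [h3] at h2
    filter_upwards [h2] with ω hω
    exact ⟨hω.1, fun x y hxy => hω.2 x y hxy (Set.subset_univ _)⟩
  · exact lr_abs (A u) μ hμ.symm σ _ _ (by linarith) (hL1 |σ| (abs_pos.2 hσ)
      (hσ0.trans (min_le_right _ _)) (A u) (hcls u))
  · obtain ⟨e1, he1, h2⟩ := hL2 |σ| (abs_pos.2 hσ)
    exact ⟨e1 + 1, by linarith, fun u => lr_abs (A u) μ hμ.symm σ _ _ (by linarith)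
      (h2 (A u) (hcls u))⟩
  · have hms : ∀ t : ℝ, |t| ≤ l0 → Ms l1 (μ.map fun v => t * v) := fun t ht =>
      ms_law hD0 hl1 μ hμ.moment t (by rwa [hl0d] at ht)
    have h2 := hac μ l0 hms |σ| (abs_pos.2 hσ) (hσ0.trans (min_le_left _ _))
    filter_upwards [h2] with u hu
    have h3 : ∀ᵐ ω ∂(Measure.infinitePi fun _ : Lt d => (μ.map fun v => -v)),
        ACo (HamY (fun x y => -A u x y) |σ| ω) ε1 (4 * d - ε1) fun x y => dv x y := by
      have e : (Measure.infinitePi fun _ : Lt d => (μ.map fun v => -v)) =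
          Measure.infinitePi fun _ : Lt d => μ := by simp only [hμ.symm]
      rw [e]
      exact hu
    have h4 := refl_prod μ _ h3
    have h5 : ∀ᵐ ω ∂(Measure.infinitePi fun _ : Lt d => μ),
        ACo (HamT (A u) |σ| ω) (-(2 * d - ε)) (2 * d - ε) fun x y => dv x y := by
      filter_upwards [h4] with ω hω
      have h5 := aco_neg (HamT (A u) |σ| ω) (HamY (fun x y => -A u x y) |σ| fun p => -ω p)
        (2 * (d : ℝ))
        (fun w _ x => hamt_hamy (A u) |σ| ω w x) (fun w x => hamy_neg _ _ _ w x)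
        (fun w x => hamt_neg _ _ _ w x) ε1 (4 * d - ε1) _ hω
      exact aco_mono h5 (by linarith) (by linarith)
    have h6 := abs_ae μ hμ.symm σ (fun V => ACo (HamT (A u) 1 V) (-(2 * d - ε)) (2 * d - ε)
      fun x y => dv x y) (by
        filter_upwards [h5] with ω hω
        rw [hamt_one] at hω
        exact hω)
    filter_upwards [h6] with ω hω
    rw [hamt_one]
    exact hω

end Pool.Agent.H121.EU
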