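import Pool.Agent.H121.MY.Weak
import Pool.Agent.H121.GA.Weak
import Pool.Agent.H121.EU.Iface

/-! Project EU: weak disorder, for the stationary environment (copies of `weakN` in `MY/Weak.lean` and of
`weakG` in `GA/Weak.lean`, with a fixed coupling). -/

set_option autoImplicit false
set_option linter.unusedSectionVars false

open scoped BigOperators InnerProductSpace Topology ENNReal
open Filter MeasureTheory

namespace Pool.Agent.H121.EU

open Pool.Agent.Y662.TR (LL Cf Mw dv hu hu_nonneg clp clp_eq clp_abs lmk ll_inner ll_ext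
  ll_summable dv_apply sub_coord smul_coord Mw_apply add_coord)
open Pool.Agent.TH369.AN (Rz rz_eq rz_uniq)
open Pool.Agent.TH369.MU (SpM spm_exists)
open Pool.Agent.H987.Z (Rs Gr Fr gZ HV S_green S_loc SqS IsSp sp_of of_sp free_ok S_free1 S_free2
  S_free3 Bd hu_meas)
open Pool.Agent.H987.Y
open Pool.Agent.H121.MY

/-- the hull is covariant -/
theorem tA_cov (hodo : S_odoA) {d : ℕ} {Q : ℕ → ℕ} (hQ : ∀ k, 0 < Q k)
    (A : ℕ → Lt d → Lt d → ℝ)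
    (hA : ∀ k x y v, A k (x + (pQ Q (k + 1) : ℤ) • v) (y + (pQ Q (k + 1) : ℤ) • v) = A k x y)
    (v : Lt d) (u : Hu d Q) (x y : Lt d) : tA A (odo v u) x y = tA A u (x + v) (y + v) := by
  obtain ⟨-, h2, -⟩ := hodo d Q hQ
  unfold tA
  refine tsum_congr fun k => ?_
  have e : hd (k + 1) (odo v u) = v + hd (k + 1) u +
      (pQ Q (k + 1) : ℤ) • (fun i => -((hd (k + 1) u i + v i) / (pQ Q (k + 1) : ℤ))) := by
    funext i
    rw [h2]
    simp only [Pi.add_apply, Pi.smul_apply, smul_eq_mul]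
    have := Int.emod_add_mul_ediv (hd (k + 1) u i + v i) (pQ Q (k + 1) : ℤ)
    linarith
  rw [e, ← add_assoc, ← add_assoc, ← add_assoc, ← add_assoc]
  exact hA k _ _ _

set_option maxHeartbeats 1000000 in
/-- **weak disorder** -/
theorem weakE (hodo : S_odoA) (hgau : S_gauge) (hop : S_op) (hmeas : S_meas) (hac : S_ac2) (hg : S_green)
    (hboot : S_bootk) (hclose : S_closek) (hnet : S_net) (hfree : S_free) (hsep : S_sep)
    (hdig : S_dig) (hA : S_hullA) (hB : S_hullB) (hkact : S_kact) (hf1 : S_free1)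
    (hf2 : S_free2) (hf3 : S_free3)
    (d : ℕ) (hd : 1 ≤ d) (α β : ℝ) (hα : 0 < α) (hαβ : α ≤ β) (hβ : β < 4 * d)
    (h2 : d = 2 → β < 4 ∨ 4 < α) (ε : ℝ) (hε : 0 < ε) :
    ∃ (lam0 : ℝ) (a m : ℕ → ℝ) (Q : ℕ → ℕ) (A : Hu d Q → Lt d → Lt d → ℝ), 0 < lam0 ∧
      (∀ k, 0 < a k) ∧ (∀ k, 1 ≤ m k) ∧
      (∀ p : ℝ, 0 < p → Summable fun k => a k ^ p * m k) ∧ (Summable fun k => a k * m k) ∧
      ∑' k, a k * m k ≤ ε ∧ (∀ k, 0 < Q k) ∧ (∀ u, Cls d a m (A u)) ∧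
      (∀ x y, Measurable fun u => A u x y) ∧
      (∀ v u x y, A (odo v u) x y = A u (x + v) (y + v)) ∧
      ∀ (μ : Measure ℝ) [IsProbabilityMeasure μ], (∀ᵐ s ∂μ, |s| ≤ 1) →
      ∀ lam : ℝ, 0 < lam → lam ≤ lam0 →
        ∀ᵐ u ∂(PH d Q), ∀ᵐ ω ∂(Measure.infinitePi fun _ : Lt d => μ),
            ACo (HamC (A u) lam ω) α β fun x y => dv x y := by
  classical
  obtain ⟨α', β', cc, CC, hα', hβ', hF⟩ := free_ok hf1 hf2 hf3 d hd α β hα hβ h2
  obtain ⟨α1, hα1⟩ : ∃ α1 : ℝ, α1 = (α + α') / 2 := ⟨_, rfl⟩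
  obtain ⟨β1, hβ1⟩ : ∃ β1 : ℝ, β1 = (β + β') / 2 := ⟨_, rfl⟩
  obtain ⟨d', rfl⟩ : ∃ d', d = d' + 1 := ⟨d - 1, by omega⟩
  have hε' : 0 < min ε ((α - α') / 4) := lt_min hε (by linarith)
  obtain ⟨lam0, Q, M, R, a, σ, hl0, hl1, hQ0, hinv, ha0, hs1, hs2, hs3, hnt, hmain⟩ :=
    iterN hgau hboot hclose hnet hfree hsep hA hB d' α1 β1 α' β' cc CC (min ε ((α - α') / 4))
      (by linarith) (by linarith) (by linarith) hF hε'
  have hκε : ∑' k, a k * ((M k : ℝ) + 1) ≤ ε := hs2.trans (min_le_left _ _)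
  have hκα : ∑' k, a k * ((M k : ℝ) + 1) ≤ (α - α') / 4 := hs2.trans (min_le_right _ _)
  have hκ0 : 0 ≤ ∑' k, a k * ((M k : ℝ) + 1) := tsum_nonneg fun k => by
    have := ha0 k
    positivity
  obtain ⟨Ak, hAk⟩ : ∃ Ak : ℕ → Lt (d' + 1) → Lt (d' + 1) → ℝ,
      Ak = fun k x y => -a k * kσ (σ k) x y := ⟨_, rfl⟩
  have hnt' : ∀ k, Net (pQ Q (k + 1)) (R k) (a k * (M k + 1)) (Ak k) := by
    intro k
    rw [hAk]
    exact hnt k
  obtain ⟨u1, u2, u3, u4, u5, u6⟩ := hA (d' + 1) Q Ak (fun k => a k * (M k + 1)) R hQ0 hnt' hs1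
  obtain ⟨hPH, -, -⟩ := hdig (d' + 1) Q hQ0
  rw [← hAk] at hmain
  obtain ⟨h, hh⟩ : ∃ h : ℝ, h = 4 * ((d' + 1 : ℕ) : ℝ) + ∑' k, a k * ((M k : ℝ) + 1) := ⟨_, rfl⟩
  rw [← hh] at u2
  -- the random operators
  have hh0 : 0 ≤ h := by
    rw [hh]
    positivity
  have hAper : ∀ k (x y v : Lt (d' + 1)), (fun x y => a k * kσ (σ k) x y)
      (x + (pQ Q (k + 1) : ℤ) • v) (y + (pQ Q (k + 1) : ℤ) • v) =
        (fun x y => a k * kσ (σ k) x y) x y := by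
    intro k x y v
    have h5 := (hnt k).per x y v
    simp only at h5 ⊢
    linarith
  have hmeasA : ∀ x y, Measurable fun u : Hu (d' + 1) Q =>
      tA (fun k x y => a k * kσ (σ k) x y) u x y := by
    intro x y
    have h5 : (fun u : Hu (d' + 1) Q => tA (fun k x y => a k * kσ (σ k) x y) u x y) =
        fun u => -tA Ak u x y := by
      funext u
      rw [hAk, (cls_of hA Q M R a σ hQ0 ha0 hs1 hs3 hnt u).2, neg_neg]
    rw [h5]
    exact (u3 x y).neg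
  refine ⟨lam0, a, fun k => (M k : ℝ) + 1, Q, tA (fun k x y => a k * kσ (σ k) x y), hl0, ha0,
    fun k => by simp, hs3, hs1, hκε, hQ0,
    fun u => (cls_of hA Q M R a σ hQ0 ha0 hs1 hs3 hnt u).1, hmeasA,
    fun v u x y => tA_cov hodo hQ0 _ hAper v u x y, fun μ _ hμ t ht1 ht2 => ?_⟩
  have hPlI : ∀ᵐ s ∂(Measure.dirac t : Measure ℝ), s ∈ Set.Ioc 0 lam0 := by
    rw [ae_dirac_eq]
    exact ⟨ht1, ht2⟩
  obtain ⟨K, hKd⟩ : ∃ K : Hu (d' + 1) Q → Lt (d' + 1) → Lt (d' + 1) → ℝ,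
      K = fun u x y => kf (d' + 1) x y + tA Ak u x y := ⟨_, rfl⟩
  have hK : ∀ u, Ker h (K u) := by
    rw [hKd]
    exact u2
  have hKm : ∀ x x', Measurable fun u => K u x x' := by
    intro x x'
    rw [hKd]
    exact measurable_const.add (u3 x x')
  have hmain' : ∀ (ν : Measure ℝ) [IsProbabilityMeasure ν], (∀ᵐ t ∂ν, |t| ≤ lam0) →
      ∀ z : ℂ, α1 ≤ z.re → z.re ≤ β1 → 0 < z.im → z.im ≤ 1 → ∀ x : Lt (d' + 1),
        ∫ q, hu (Gr (Op (kr K q)) z x x) (gZ (d' + 1) z) ^ 2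
          ∂((PH (d' + 1) Q).prod (Measure.infinitePi fun _ : Lt (d' + 1) => ν)) ≤ 1 / 100 := by
    rw [hKd]
    exact hmain
  have hae := hac (Lt (d' + 1)) _
    ((Measure.dirac t : Measure ℝ).prod ((PH (d' + 1) Q).prod (Measure.infinitePi fun _ : Lt (d' + 1) => μ)))
    (fun q => Op (kq K q)) (h + 1)
    (gZ (d' + 1)) α1 β1 cc CC (1 / 100) (fun q => (hop _ _ _ (ker_kq K hop hK q)).2.2.1.sa)
    (fun q => (hop _ _ _ (ker_kq K hop hK q)).2.1)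
    (fun z x y hz => hmeas _ _ (kq K) (h + 1) (ker_kq K hop hK) (meas_kq K hKm) z x y hz)
    (gZ_cont hop hg hfree (d' + 1))
    hF.c0 (fun z y1 y2 y3 y4 => ⟨hF.lo z (by linarith) (by linarith) y3 (by linarith),
      hF.up z (by linarith) (by linarith) y3 (by linarith)⟩)
    (fun z y1 y2 y3 y4 x => int_bound K hop hmeas hg (PH (d' + 1) Q) h hh0 hK hKm μ hμ lam0
      (1 / 100) z (gZ (d' + 1) z) y3
      (hF.c0.trans_le (hF.lo z (by linarith) (by linarith) y3 (by linarith))) x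
      (fun ν _ hν => hmain' ν hν z y1.le y2.le y3 y4 x) (Measure.dirac t) hPlI)
  -- rearrange
  have hae4 := ae_rearr (PH (d' + 1) Q) (Measure.infinitePi fun _ : Lt (d' + 1) => μ)
    (Measure.dirac t : Measure ℝ) _ hae
  have hbd : ∀ᵐ ω ∂(Measure.infinitePi fun _ : Lt (d' + 1) => μ), ∀ g, |ω g| ≤ 1 := by
    rw [ae_all_iff]
    intro g
    have h1 := (measurePreserving_eval_infinitePi (fun _ : Lt (d' + 1) => μ)
      g).quasiMeasurePreserving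
    exact h1.ae hμ
  have hdv : ∀ p : Lt (d' + 1), SqS (fun x => (dv p : LL (Lt (d' + 1))) x) := fun p =>
    ll_summable _
  filter_upwards [hae4] with u hu'
  rw [ae_dirac_eq] at hu'
  have ht : ∀ᵐ ω ∂(Measure.infinitePi fun _ : Lt (d' + 1) => μ), _ := hu'
  obtain ⟨hcls, hneg⟩ := cls_of hA Q M R a σ hQ0 ha0 hs1 hs3 hnt u
  obtain ⟨A, hAd⟩ : ∃ A, A = tA (fun k x y => a k * kσ (σ k) x y) u := ⟨_, rfl⟩
  rw [← hAd] at hcls hneg ⊢
  rw [← hAk] at hneg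
  have hAn : tA Ak u = fun x y => -A x y := by
    funext x y
    exact hneg x y
  have htI : t ∈ Set.Ioc 0 lam0 := ⟨ht1, ht2⟩
  filter_upwards [hbd, ht] with ω hω h5
  obtain ⟨h6, h7⟩ := h5
  refine aco_aff (HamC A t ω) (HamY (tA Ak u) t ω) (∑' k, a k * ((M k : ℝ) + 1)) ?_ α β
    (α - ∑' k, a k * ((M k : ℝ) + 1)) β le_rfl (by linarith) _ ?_
  · intro v hv x
    rw [hAn]
    exact ham_c hcls t ω v hv x
  have hT : Op (kq K (t, (u, ω))) = Op (fun x y => kf (d' + 1) x y + tA Ak u x y) +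
      Mw 1 (fun x => t * ω x) := by
    have h8 := ((hop _ _ _ (hK u)).2.2.2.1 fun x => t * ω x).2
    rw [hKd] at h8 ⊢
    exact h8
  have hAct : ∀ (v : LL (Lt (d' + 1))) (p : Lt (d' + 1)),
      HamY (tA Ak u) t ω (fun y => v y) p = Op (kq K (t, (u, ω))) v p := by
    intro v p
    rw [hT]
    exact act2 hop hkact (u1 u) (u2 u) t 1 (by
      rw [abs_of_pos htI.1, abs_one]
      exact htI.2.trans hl1) ω hω v p
  have hsa : IsSelfAdjoint (Op (kq K (t, (u, ω)))) := (hop _ _ _ (ker_kq K hop hK _)).2.2.1.sa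
  refine ⟨fun f hf => ?_, fun f m hf hm E hE1 hE2 => ?_, fun p m hm E hE1 hE2 hE3 => ?_⟩
  · obtain ⟨m, hm, -⟩ := spm_exists (Op (kq K (t, (u, ω)))) hsa (lmk f hf)
    exact ⟨m, of_sp _ _ hsa hAct f hf m hm⟩
  · refine h6 _ m (sp_of _ _ hsa hAct f hf m hm) E (hE1.trans ?_) hE2
    intro y hy
    exact ⟨by linarith [hy.1], by linarith [hy.2]⟩
  · have h8 := sp_of _ _ hsa hAct _ (hdv p) m hm
    have h9 : lmk (fun x => (dv p : LL (Lt (d' + 1))) x) (hdv p) = dv p := rfl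
    rw [h9] at h8
    refine h7 p m h8 E (hE1.trans ?_) hE2 hE3
    intro y hy
    exact ⟨by linarith [hy.1], by linarith [hy.2]⟩


end Pool.Agent.H121.EU

namespace Pool.Agent.H121.EU

open Pool.Agent.Y662.TR (LL dv hu lmk ll_summable)
open Pool.Agent.H987.Z (Rs Gr Fr gZ S_green SqS IsSp free_ok S_free1 S_free2 S_free3)
open Pool.Agent.H987.Y
open Pool.Agent.H121.MY (Cls cls_of ACo S_gauge)
open Pool.Agent.H121.GA

set_option maxHeartbeats 1000000 in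
/-- **weak disorder** -/
theorem weakEG (hodo : S_odoA) (hop : S_op) (hopb : S_opb) (hmeas : S_meas) (hac : S_acR) (hg : S_green)
    (hru : S_ruA) (hrf : S_ruB) (hsite : S_site) (hmU : S_mU)
    (hgau : S_gauge) (hboot : S_bootk) (hclose : S_closeb) (hnet : S_netU) (hfree : S_free)
    (hsep : S_sep) (hdig : S_dig) (hA : S_hullA) (hB : S_hullBb) (hkact : S_kact) (hf1 : S_free1)
    (hf2 : S_free2) (hf3 : S_free3)
    (d : ℕ) (hd : 1 ≤ d) (α β : ℝ) (hα : 0 < α) (hαβ : α ≤ β) (hβ : β < 4 * d)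
    (h2 : d = 2 → β < 4 ∨ 4 < α) (ε : ℝ) (hε : 0 < ε)
    :
    ∃ (a m : ℕ → ℝ) (Q : ℕ → ℕ) (A : Hu d Q → Lt d → Lt d → ℝ) (lam0 : ℝ), 0 < lam0 ∧
      (∀ k, 0 < a k) ∧ (∀ k, 1 ≤ m k) ∧
      (∀ p : ℝ, 0 < p → Summable fun k => a k ^ p * m k) ∧ (Summable fun k => a k * m k) ∧
      ∑' k, a k * m k ≤ ε ∧ (∀ k, 0 < Q k) ∧ (∀ u, Cls d a m (A u)) ∧
      (∀ x y, Measurable fun u => A u x y) ∧
      (∀ v u x y, A (odo v u) x y = A u (x + v) (y + v)) ∧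
      ∀ (μ : Measure ℝ) [IsProbabilityMeasure μ] (l0 : ℝ),
      (∀ t : ℝ, |t| ≤ l0 → Ms lam0 (μ.map fun v => t * v)) → ∀ lam : ℝ, 0 < lam → lam ≤ l0 →
        ∀ᵐ u ∂(PH d Q), ∀ᵐ ω ∂(Measure.infinitePi fun _ : Lt d => μ),
            ACo (HamY (fun x y => -A u x y) lam ω) α β fun x y => dv x y := by
  classical
  obtain ⟨α', β', cc, CC, hα', hβ', hF⟩ := free_ok hf1 hf2 hf3 d hd α β hα hβ h2
  obtain ⟨α1, hα1⟩ : ∃ α1 : ℝ, α1 = (α + α') / 2 := ⟨_, rfl⟩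
  obtain ⟨β1, hβ1⟩ : ∃ β1 : ℝ, β1 = (β + β') / 2 := ⟨_, rfl⟩
  obtain ⟨d', rfl⟩ : ∃ d', d = d' + 1 := ⟨d - 1, by omega⟩
  obtain ⟨lam0, Q, M, R, a, σ, hl0, hl1, hQ0, hinv, ha0, hs1, hs2, hs3, hnt, hmain⟩ :=
    iterG hopb hgau hboot hclose hnet hfree hsep hA hB d' α1 β1 α' β' cc CC ε
      (by linarith) (by linarith) (by linarith) hF hε
  obtain ⟨Ak, hAk⟩ : ∃ Ak : ℕ → Lt (d' + 1) → Lt (d' + 1) → ℝ,
      Ak = fun k x y => -a k * kσ (σ k) x y := ⟨_, rfl⟩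
  have hnt' : ∀ k, Net (pQ Q (k + 1)) (R k) (a k * (M k + 1)) (Ak k) := by
    intro k
    rw [hAk]
    exact hnt k
  obtain ⟨u1, u2, u3, u4, u5, u6⟩ := hA (d' + 1) Q Ak (fun k => a k * (M k + 1)) R hQ0 hnt' hs1
  obtain ⟨hPH, -, -⟩ := hdig (d' + 1) Q hQ0
  rw [← hAk] at hmain
  obtain ⟨h, hh⟩ : ∃ h : ℝ, h = 4 * ((d' + 1 : ℕ) : ℝ) + ∑' k, a k * ((M k : ℝ) + 1) := ⟨_, rfl⟩
  rw [← hh] at u2
  have hκ0 : 0 ≤ ∑' k, a k * ((M k : ℝ) + 1) := tsum_nonneg fun k => by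
    have := ha0 k
    positivity
  -- the random operators
  have hh0 : 0 ≤ h := by
    rw [hh]
    positivity
  have hAper : ∀ k (x y v : Lt (d' + 1)), (fun x y => a k * kσ (σ k) x y)
      (x + (pQ Q (k + 1) : ℤ) • v) (y + (pQ Q (k + 1) : ℤ) • v) =
        (fun x y => a k * kσ (σ k) x y) x y := by
    intro k x y v
    have h5 := (hnt k).per x y v
    simp only at h5 ⊢
    linarith
  have hmeasA : ∀ x y, Measurable fun u : Hu (d' + 1) Q =>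
      tA (fun k x y => a k * kσ (σ k) x y) u x y := by
    intro x y
    have h5 : (fun u : Hu (d' + 1) Q => tA (fun k x y => a k * kσ (σ k) x y) u x y) =
        fun u => -tA Ak u x y := by
      funext u
      rw [hAk, (cls_of hA Q M R a σ hQ0 ha0 hs1 hs3 hnt u).2, neg_neg]
    rw [h5]
    exact (u3 x y).neg
  refine ⟨a, fun k => (M k : ℝ) + 1, Q, tA (fun k x y => a k * kσ (σ k) x y), lam0, hl0, ha0,
    fun k => by simp, hs3, hs1, hs2, hQ0,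
    fun u => (cls_of hA Q M R a σ hQ0 ha0 hs1 hs3 hnt u).1, hmeasA,
    fun v u x y => tA_cov hodo hQ0 _ hAper v u x y, fun μ _ l0 hMs t ht1 ht2 => ?_⟩
  have hPlI : ∀ᵐ s ∂(Measure.dirac t : Measure ℝ), s ∈ Set.Ioc 0 l0 := by
    rw [ae_dirac_eq]
    exact ⟨ht1, ht2⟩
  obtain ⟨K, hKd⟩ : ∃ K : Hu (d' + 1) Q → Lt (d' + 1) → Lt (d' + 1) → ℝ,
      K = fun u x y => kf (d' + 1) x y + tA Ak u x y := ⟨_, rfl⟩
  have hK : ∀ u, Ker h (K u) := by
    rw [hKd]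
    exact u2
  have hKm : ∀ x x', Measurable fun u => K u x x' := by
    intro x x'
    rw [hKd]
    exact measurable_const.add (u3 x x')
  have hKrs : ∀ u, Rs (Op (K u)) := fun u => (hop _ _ _ (hK u)).2.2.1
  have hmain' : ∀ b : ℝ, 1 ≤ b → ∀ (ν : Measure ℝ) [IsProbabilityMeasure ν], Ms lam0 ν →
      ∀ z : ℂ, α1 ≤ z.re → z.re ≤ β1 → 0 < z.im → z.im ≤ 1 → ∀ x : Lt (d' + 1),
        ∫ q, hu (Gr (Op (krb K b q)) z x x) (gZ (d' + 1) z) ^ 2
          ∂((PH (d' + 1) Q).prod (Measure.infinitePi fun _ : Lt (d' + 1) => ν)) ≤ 1 / 100 := by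
    rw [hKd]
    exact hmain
  have hae := hac (Lt (d' + 1)) _
    ((Measure.dirac t : Measure ℝ).prod ((PH (d' + 1) Q).prod (Measure.infinitePi fun _ : Lt (d' + 1) => μ)))
    (fun q => RU (Op (K q.2.1)) fun y => q.1 * q.2.2 y)
    (gZ (d' + 1)) α1 β1 cc CC (1 / 100) (fun q => hrf _ _ (hKrs q.2.1) _)
    (fun z x y hz => hmU.2 (Lt (d' + 1)) _
      (fun q : ℝ × Hu (d' + 1) Q × (Lt (d' + 1) → ℝ) => K q.2.1) h
      (fun q y => q.1 * q.2.2 y) (fun q => hK q.2.1)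
      (fun x y => (hKm x y).comp (measurable_fst.comp measurable_snd))
      (fun x => measurable_fst.mul ((measurable_pi_apply x).comp
        (measurable_snd.comp measurable_snd))) z x y hz)
    (gZ_cont hop hg hfree (d' + 1))
    hF.c0 (fun q z x hz => ((hsite _ _ (hKrs q.2.1)).1 _ z x x hz).1)
    (fun z y1 y2 y3 y4 => ⟨hF.lo z (by linarith) (by linarith) y3 (by linarith),
      hF.up z (by linarith) (by linarith) y3 (by linarith)⟩)
    (fun z y1 y2 y3 y4 x => lint_bound K hop hopb hmeas hg hru hsite hmU (PH (d' + 1) Q) h hh0 hK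
      hKm μ lam0 (1 / 100) z (gZ (d' + 1) z) y3
      (hF.c0.trans_le (hF.lo z (by linarith) (by linarith) y3 (by linarith))) x l0 hMs
      (fun b hb ν _ hν => hmain' b hb ν hν z y1.le y2.le y3 y4 x) (Measure.dirac t) hPlI)
  -- rearrange
  have hae4 := ae_rearr (PH (d' + 1) Q) (Measure.infinitePi fun _ : Lt (d' + 1) => μ)
    (Measure.dirac t : Measure ℝ) _ hae
  have hdv : ∀ p : Lt (d' + 1), SqS (fun x => (dv p : LL (Lt (d' + 1))) x) := fun p =>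
    ll_summable _
  filter_upwards [hae4] with u hu'
  rw [ae_dirac_eq] at hu'
  have ht : ∀ᵐ ω ∂(Measure.infinitePi fun _ : Lt (d' + 1) => μ), _ := hu'
  obtain ⟨hcls, hneg⟩ := cls_of hA Q M R a σ hQ0 ha0 hs1 hs3 hnt u
  obtain ⟨A, hAd⟩ : ∃ A, A = tA (fun k x y => a k * kσ (σ k) x y) u := ⟨_, rfl⟩
  rw [← hAd] at hcls hneg ⊢
  rw [← hAk] at hneg
  have hAn : tA Ak u = fun x y => -A x y := by
    funext x y
    exact hneg x y
  filter_upwards [ht] with ω h5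
  obtain ⟨h6, h7⟩ := h5
  rw [← hAn]
  have hAct : ∀ (v : LL (Lt (d' + 1))) (p : Lt (d' + 1)),
      HamY (tA Ak u) t ω (fun y => v y) p =
        Op (K u) v p + (((t * ω p : ℝ)) : ℂ) * v p := by
    intro v p
    have h8 := act hop hkact (u1 u) (u2 u) v p
    rw [hKd]
    simp only
    rw [h8]
    rfl
  refine ⟨fun f hf => ?_, fun f m hf hm E hE1 hE2 => ?_, fun p m hm E hE1 hE2 hE3 => ?_⟩
  · obtain ⟨m, hm, -⟩ := (hrf _ _ (hKrs u) fun y => t * ω y).sp (lmk f hf)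
    exact ⟨m, of_spr hru _ _ (hKrs u) (fun y => t * ω y) hAct f hf m hm⟩
  · refine h6 _ m (spr_of hru _ _ (hKrs u) (fun y => t * ω y) hAct f hf m hm) E (hE1.trans ?_) hE2
    intro y hy
    exact ⟨by linarith [hy.1], by linarith [hy.2]⟩
  · have h8 := spr_of hru _ _ (hKrs u) (fun y => t * ω y) hAct _ (hdv p) m hm
    have h9 : lmk (fun x => (dv p : LL (Lt (d' + 1))) x) (hdv p) = dv p := rfl
    rw [h9] at h8
    refine h7 p m h8 E (hE1.trans ?_) hE2 hE3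
    intro y hy
    exact ⟨by linarith [hy.1], by linarith [hy.2]⟩

end Pool.Agent.H121.EU
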